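import Pool.Agent.T2h83.UP.Fin
import Pool.Agent.R518.B.IPr

/-!
# Representations of all the types `(a, 0)`, `a ≤ A`, at once, in all the residue classes of almost all moduli

Let `M` be the product of the primes up to `y`, where `y` is a large constant times `log log x`. For almost all moduli `q`, up
to `x / log ^ B x`, and for every residue class `r` modulo `q` (if `q` has prime factors between `y` and `log ^ B x`, they have
to divide `r`; so all the classes if `q` is prime, and the multiples of `q` for all `q`) almost all the numbers `M n`, where `n`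
is in this class and `x < M n ≤ 2 x`, have for EVERY `a ≤ A` at least about the expected number of representations as the sum
of an `a`-prime and a prime. For the largest moduli there are only `log ^ B x` numbers in each class. The same holds for every
set of primes with at least `x / log ^ A x` elements in place of the set of the `a`-primes.

Method: the difference of the von Mangoldt function and a sieve model is summed with arbitrary weights over the members of all
the residue classes of almost all moduli (large values of its exponential sum on the translates `β + c / q` are counted for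
all moduli at once: `Pool.Agent.T2h83.UP.univ`); for the model, the second moment over the members of the class is computed
with the fundamental lemma of the sieve, with the averages over pairs of elements of arbitrary sets of the starting files
(`Pool.Agent.Y877.SX`). The lower bound for the number of the `a`-primes is from the starting files (`Pool.Agent.R518.IP`).
-/

set_option autoImplicit false

open Finset

namespace Pool.Agent.Results.MP_e3f158_nt.AllClassesAlmostAllModuli

/-- The `i`-th `a`-prime: the `(a + 1)`-fold iterate of `k ↦ k`-th prime, applied to `i`. -/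
noncomputable def iPrime (a i : ℕ) : ℕ := Nat.iterate (fun k : ℕ => Nat.nth Nat.Prime (k - 1)) (a + 1) i

/-- `m` has a representation of type `(a, b)`. -/
def HasRep (a b m : ℕ) : Prop :=
  ∃ i j : ℕ, 1 ≤ i ∧ 1 ≤ j ∧ iPrime a i + iPrime b j = m ∧ iPrime a i ≠ iPrime b j

open Classical in
/-- The `a`-primes `≤ x`. -/
noncomputable def IPs (a x : ℕ) : Finset ℕ := (Icc 1 x).filter (fun u => ∃ i : ℕ, 0 < i ∧ iPrime a i = u)

/-- The product of `1 - 1 / p` over the primes `p ≤ y`. -/
noncomputable def V (y : ℕ) : ℝ := ∏ p ∈ (Icc 1 y).filter Nat.Prime, (1 - 1 / (p : ℝ))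

/-- The number of the `u ∈ U` such that `N - u` is prime. -/
def reps (U : Finset ℕ) (N : ℕ) : ℕ := (U.filter (fun u => (N - u).Prime)).card

/-- The integers `n` with `n ≡ r` modulo `q` and `x < M n ≤ 2 x`, where `M` is the product of the primes `≤ y`. -/
def members (x y q r : ℕ) : Finset ℕ :=
  (Icc 1 (2 * x)).filter (fun n => x < primorial y * n ∧ primorial y * n ≤ 2 * x ∧ n ≡ r [MOD q])

lemma hasRep_of {a x N : ℕ} (hN : x < N) (h : 2 ≤ reps (IPs a x) N) : HasRep a 0 N := by
  classical
  unfold reps at h
  obtain ⟨u, hu, v, hv, huv⟩ := one_lt_card.1 (show 1 < ((IPs a x).filter (fun u => (N - u).Prime)).card by omega)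
  obtain ⟨w, hw, hwN⟩ : ∃ w ∈ (IPs a x).filter (fun u => (N - u).Prime), w ≠ N - w := by
    by_cases h1 : u = N - u
    · refine ⟨v, hv, fun h2 => huv ?_⟩
      rw [mem_filter] at hu hv
      unfold IPs at hu hv
      rw [mem_filter, mem_Icc] at hu hv
      omega
    · exact ⟨u, hu, h1⟩
  rw [mem_filter] at hw
  obtain ⟨hw1, hw2⟩ := hw
  unfold IPs at hw1
  rw [mem_filter, mem_Icc] at hw1
  obtain ⟨⟨hw3, hw4⟩, i, hi, hiw⟩ := hw1
  have h0 : iPrime 0 (Nat.count Nat.Prime (N - w) + 1) = N - w := by
    unfold iPrime
    show Nat.nth Nat.Prime (Nat.count Nat.Prime (N - w) + 1 - 1) = N - w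
    rw [Nat.add_sub_cancel]
    exact Nat.nth_count hw2
  refine ⟨i, Nat.count Nat.Prime (N - w) + 1, hi, by omega, ?_, ?_⟩
  · rw [hiw, h0]
    omega
  · rw [hiw, h0]
    exact hwN

open Classical in
/-- **Theorem.** For all `A`, `W` and `0 < ε ≤ 1` there is `K₀` such that for every `K₁` there are `B` and `x₀` with the
following property. Let `x ≥ x₀`, let `y` be between `K₀ log log x` and `K₁ log log x`, let `M` be the product of the primes
`≤ y` and let `Q` be an integer with `Q log ^ B x ≤ x`. For all the moduli `q` in `(Q, 2 Q]`, except for at most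
`Q / log ^ W x` of them, and for all residue classes `r` modulo `q` which are divisible by all the prime factors `p` of `q`
with `y < p ≤ log ^ B x`:
(1) for every set `U` of primes `≤ x` with at least `x / log ^ A x` elements, for all the `n ≡ r` modulo `q` with
`x < M n ≤ 2 x`, except for at most `ε x / (M q)` of them, `M n` has at least `(1 - ε) #U / (V y log x)` representations as the
sum of an element of `U` and a prime;
(2) all the `n ≡ r` modulo `q` with `x < M n ≤ 2 x`, except for at most `ε x / (M q)` of them, have the following property: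
for EVERY `a ≤ A` the number `M n` has a representation of type `(a, 0)`, and at least `(1 - ε) #IPs a x / (V y log x)`
representations as the sum of an `a`-prime `≤ x` and a prime. -/
theorem result (A W : ℕ) (ε : ℝ) (hε : 0 < ε) (hε1 : ε ≤ 1) : ∃ K₀ : ℕ, ∀ K₁ : ℕ, ∃ B x₀ : ℕ, ∀ x : ℕ, x₀ ≤ x →
    ∀ y : ℕ, K₀ * Real.log (Real.log x) ≤ y → (y : ℝ) ≤ K₁ * Real.log (Real.log x) →
    ∀ Q : ℕ, (Q : ℝ) * Real.log x ^ B ≤ x →
    ∃ X : Finset ℕ, (X.card : ℝ) ≤ Q / Real.log x ^ W ∧ ∀ q ∈ Ioc Q (2 * Q), q ∉ X →
      ∀ r : ℕ, (∀ p : ℕ, p.Prime → y < p → (p : ℝ) ≤ Real.log x ^ B → p ∣ q → p ∣ r) →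
      (∀ U : Finset ℕ, U ⊆ Icc 1 x → (∀ u ∈ U, u.Prime) → (x : ℝ) ≤ U.card * Real.log x ^ A →
        (((members x y q r).filter (fun n => (reps U (primorial y * n) : ℝ) <
          (1 - ε) * (U.card / (V y * Real.log x)))).card : ℝ) ≤ ε * (x / (primorial y * q))) ∧
      (((members x y q r).filter (fun n => ¬ ∀ a ≤ A, HasRep a 0 (primorial y * n) ∧
          (1 - ε) * ((IPs a x).card / (V y * Real.log x)) ≤ reps (IPs a x) (primorial y * n))).card : ℝ) ≤
        ε * (x / (primorial y * q)) := by
  have hA : (0 : ℝ) < A + 1 := by positivity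
  obtain ⟨ε', hε'⟩ : ∃ ε' : ℝ, ε' = ε / (2 * (A + 1)) := ⟨_, rfl⟩
  have hA1 : (1 : ℝ) ≤ A + 1 := by
    have : (0 : ℝ) ≤ A := Nat.cast_nonneg A
    linarith
  have he0 : 0 < ε' := by rw [hε']; positivity
  have he2 : ε' ≤ ε / 2 := by
    rw [hε']
    exact div_le_div_of_nonneg_left hε.le (by norm_num) (by linarith)
  have he1 : ε' ≤ 1 / 2 := by linarith
  have heA : (A + 1) * ε' ≤ ε := by
    rw [hε']
    have : (A + 1) * (ε / (2 * (A + 1))) = ε / 2 := by field_simp
    rw [this]
    linarith
  obtain ⟨K₀, hK₀⟩ := Pool.Agent.T2h83.UP.cls (A + 2) W ε' he0 (by linarith)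
  refine ⟨K₀, fun K₁ => ?_⟩
  obtain ⟨B, x₁, h1⟩ := hK₀ K₁
  choose c hc x₂ h2 using fun a => Pool.Agent.R518.IP.IPs_low a
  obtain ⟨x₃, h3⟩ := Pool.Agent.H373R2.T7.ev_L' (1 + ∑ a ∈ range (A + 1), 1 / c a)
  obtain ⟨x₄, h4⟩ := Pool.Agent.H373R2.T7.ev_log' (A + 3) 4
  refine ⟨B, x₁ + ∑ a ∈ range (A + 1), x₂ a + x₃ + x₄ + 3, fun x hx y hy1 hy2 Q hQ => ?_⟩
  obtain ⟨X, hX1, hX2⟩ := h1 x (by omega) y hy1 hy2 Q hQ
  have hL := h3 x (by omega)
  have hL4 := h4 x (by omega)
  have hsum0 : 0 ≤ ∑ a ∈ range (A + 1), 1 / c a := sum_nonneg fun a _ => by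
    have := hc a
    positivity
  have hx0 : (0 : ℝ) < x := by exact_mod_cast (by omega : 0 < x)
  have hx1 : (1 : ℝ) ≤ x := by exact_mod_cast (by omega : 1 ≤ x)
  refine ⟨X, hX1, fun q hq hqX r hr => ?_⟩
  have h5 := hX2 q hq hqX r hr
  have hVe : V y = Pool.Agent.H373R2.T7.Vz y := rfl
  have hV0 : 0 < V y := by rw [hVe]; exact Pool.Agent.H373R2.T7.Vz_pos y
  have hV1 : V y ≤ 1 := by rw [hVe]; exact Pool.Agent.H373R2.T7.Vz_le_one y
  obtain ⟨L, hLd⟩ : ∃ L, L = Real.log (x : ℝ) := ⟨_, rfl⟩
  rw [← hVe] at h5
  rw [← hLd] at h5 hL hL4 ⊢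
  have hL1 : 1 ≤ L := by linarith
  have hL0 : 0 < L := by linarith
  have hq0 : (0 : ℝ) < q := by
    rw [mem_Ioc] at hq
    exact_mod_cast (by omega : 0 < q)
  have hM0 : (0 : ℝ) < primorial y := by exact_mod_cast primorial_pos y
  have hxMq : 0 ≤ (x : ℝ) / (primorial y * q) := by positivity
  -- one set
  have key : ∀ U : Finset ℕ, U ⊆ Icc 1 x → (∀ u ∈ U, u.Prime) → (x : ℝ) ≤ U.card * L ^ (A + 2) →
      (((members x y q r).filter (fun n => (reps U (primorial y * n) : ℝ) <
          (1 - ε') * (U.card / (V y * L)))).card : ℝ) ≤ ε' * (x / (primorial y * q)) := by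
    intro U hU hUp hUc
    refine le_trans (le_of_eq ?_) (h5 U hU hUp hUc)
    congr 2
    unfold members
    rw [filter_filter]
    apply filter_congr
    intro n _
    unfold reps
    tauto
  refine ⟨fun U hU hUp hUc => ?_, ?_⟩
  · have h6 := key U hU hUp (by
      refine hUc.trans ?_
      apply mul_le_mul_of_nonneg_left _ (Nat.cast_nonneg _)
      exact pow_le_pow_right₀ hL1 (by omega))
    have h7 : ((members x y q r).filter (fun n => (reps U (primorial y * n) : ℝ) < (1 - ε) * (U.card / (V y * L)))) ⊆
        ((members x y q r).filter (fun n => (reps U (primorial y * n) : ℝ) < (1 - ε') * (U.card / (V y * L)))) := by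
      intro n hn
      rw [mem_filter] at hn ⊢
      refine ⟨hn.1, hn.2.trans_le ?_⟩
      apply mul_le_mul_of_nonneg_right (by linarith)
      positivity
    have h8 : (((members x y q r).filter (fun n => (reps U (primorial y * n) : ℝ) <
        (1 - ε) * (U.card / (V y * L)))).card : ℝ) ≤ ((members x y q r).filter (fun n =>
        (reps U (primorial y * n) : ℝ) < (1 - ε') * (U.card / (V y * L)))).card := by
      exact_mod_cast card_le_card h7
    refine h8.trans (h6.trans ?_)
    apply mul_le_mul_of_nonneg_right _ hxMq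
    linarith
  · have hIP : ∀ a ∈ range (A + 1), IPs a x ⊆ Icc 1 x ∧ (∀ u ∈ IPs a x, u.Prime) ∧
        (x : ℝ) ≤ (IPs a x).card * L ^ (A + 2) := by
      intro a ha
      rw [mem_range] at ha
      refine ⟨filter_subset _ _, fun u hu => ?_, ?_⟩
      · unfold IPs at hu
        rw [mem_filter] at hu
        obtain ⟨i, _, hi⟩ := hu.2
        rw [← hi]
        exact Pool.Agent.R518.IP.ip_prime a i
      · have e1 : x₂ a ≤ ∑ a ∈ range (A + 1), x₂ a :=
          single_le_sum (f := x₂) (fun _ _ => Nat.zero_le _) (mem_range.2 ha)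
        have e2 := h2 a x (by omega)
        rw [← hLd] at e2
        have e3 : 1 / c a ≤ L := by
          have : 1 / c a ≤ ∑ a ∈ range (A + 1), 1 / c a :=
            single_le_sum (f := fun a => 1 / c a) (fun a _ => by have := hc a; positivity) (mem_range.2 ha)
          linarith
        rw [div_le_iff₀ (hc a)] at e3
        have e4 : ((Pool.Agent.R518.IP.IPs a x).card : ℝ) = (IPs a x).card := rfl
        rw [e4] at e2
        calc (x : ℝ) = x * 1 := by ring
          _ ≤ x * (L * c a) := mul_le_mul_of_nonneg_left e3 hx0.le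
          _ = (c a * x) * L := by ring
          _ ≤ ((IPs a x).card * L ^ (a + 1)) * L := mul_le_mul_of_nonneg_right e2 hL0.le
          _ = (IPs a x).card * L ^ (a + 2) := by ring
          _ ≤ (IPs a x).card * L ^ (A + 2) := by
              apply mul_le_mul_of_nonneg_left _ (Nat.cast_nonneg _)
              exact pow_le_pow_right₀ hL1 (by omega)
    have hsub : (members x y q r).filter (fun n => ¬ ∀ a ≤ A, HasRep a 0 (primorial y * n) ∧
          (1 - ε) * ((IPs a x).card / (V y * L)) ≤ reps (IPs a x) (primorial y * n)) ⊆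
        (range (A + 1)).biUnion (fun a => (members x y q r).filter (fun n => (reps (IPs a x) (primorial y * n) : ℝ) <
          (1 - ε') * ((IPs a x).card / (V y * L)))) := by
      intro n hn
      rw [mem_filter] at hn
      obtain ⟨hn1, hn2⟩ := hn
      by_contra hcon
      apply hn2
      intro a ha
      have h6 : (1 - ε') * ((IPs a x).card / (V y * L)) ≤ reps (IPs a x) (primorial y * n) := by
        by_contra h7
        rw [not_le] at h7
        apply hcon
        rw [mem_biUnion]
        exact ⟨a, mem_range.2 (by omega), mem_filter.2 ⟨hn1, h7⟩⟩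
      have hc0 : 0 ≤ ((IPs a x).card : ℝ) / (V y * L) := by positivity
      refine ⟨?_, ?_⟩
      · apply hasRep_of (x := x)
        · unfold members at hn1
          rw [mem_filter] at hn1
          exact hn1.2.1
        · have h7 := (hIP a (mem_range.2 (by omega))).2.2
          have h8 : 4 * L ^ (A + 3) ≤ x := by
            refine hL4.trans ?_
            have : 1 ≤ √(x : ℝ) := by rw [← Real.sqrt_one]; exact Real.sqrt_le_sqrt hx1
            calc √(x : ℝ) = √(x : ℝ) * 1 := (mul_one _).symm
              _ ≤ √(x : ℝ) * √(x : ℝ) := by gcongr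
              _ = x := Real.mul_self_sqrt hx0.le
          have h9 : 4 * L ≤ (IPs a x).card := by
            have h10 : (4 * L) * L ^ (A + 2) ≤ (IPs a x).card * L ^ (A + 2) := by
              refine le_trans (le_of_eq ?_) (h8.trans h7)
              ring
            exact le_of_mul_le_mul_right h10 (by positivity)
          have h11 : (4 : ℝ) ≤ (IPs a x).card / (V y * L) := by
            rw [le_div_iff₀ (by positivity)]
            calc 4 * (V y * L) ≤ 4 * (1 * L) := by gcongr
              _ = 4 * L := by ring
              _ ≤ _ := h9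
          have h12 : (2 : ℝ) ≤ reps (IPs a x) (primorial y * n) := by
            refine le_trans ?_ h6
            nlinarith
          exact_mod_cast h12
      · refine le_trans ?_ h6
        apply mul_le_mul_of_nonneg_right (by linarith) hc0
    have h6 : (((members x y q r).filter (fun n => ¬ ∀ a ≤ A, HasRep a 0 (primorial y * n) ∧
          (1 - ε) * ((IPs a x).card / (V y * L)) ≤ reps (IPs a x) (primorial y * n))).card : ℝ) ≤
        ∑ a ∈ range (A + 1), (((members x y q r).filter (fun n => (reps (IPs a x) (primorial y * n) : ℝ) <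
          (1 - ε') * ((IPs a x).card / (V y * L)))).card : ℝ) := by
      exact_mod_cast (card_le_card hsub).trans card_biUnion_le
    refine h6.trans ((sum_le_sum fun a ha => key (IPs a x) (hIP a ha).1 (hIP a ha).2.1 (hIP a ha).2.2).trans ?_)
    rw [sum_const, card_range, nsmul_eq_mul]
    push_cast
    calc ((A : ℝ) + 1) * (ε' * (x / (primorial y * q))) = ((A + 1) * ε') * (x / (primorial y * q)) := by ring
      _ ≤ ε * (x / (primorial y * q)) := mul_le_mul_of_nonneg_right heA hxMq

end Pool.Agent.Results.MP_e3f158_nt.AllClassesAlmostAllModuli
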