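import Pool.Agent.T2q87.IP.Fin

/-!
# All types `(a, b)`, `a ≤ A`, `b ≤ B`, at once, for `c X / ((log log X) ^ min (A, B) (log log log X) ^ 2)` numbers

For all `A`, `B` there is `c > 0` such that for all large `X` at least
`c X / ((log log X) ^ min (A, B) (log log log X) ^ 2)` of the `n ≤ X` are such that `2 n` has a representation of
type `(a, b)` for ALL `a ≤ A` and `b ≤ B`, by one and the same pair of different primes, the smaller of which is at
most `(log X) ^ (max (A, B) + 2)`.

The starting file `AllTypesManyEvenNumbers` has `X / (log X) ^ ε` (for one type), `UniformTypesAZero` has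
`c X / (log log log log X)` for the types `(a, 0)` and `(0, b)`. A loss of about `(log log X) ^ min (A, B)` cannot be
avoided without information on the distribution of the iterated primes in residue classes: as far as is known, the
`a`-primes up to any `L` could lie in one reduced class modulo some `q` with `φ(q)` about `(log L) ^ a`.

Proof. (1) For every `b` there is a subset `Q` of a positive proportion of the `b`-primes up to `X` which has at most
a constant times the average number of elements in every interval `(i J, (i + 1) J]`, where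
`(log X) ^ (b + 1) ≤ J ≤ (log X) ^ C`: induction on `b`; the indices of the `b`-primes are treated at the scale
`J / log X` by the induction hypothesis, and the intervals with too many primes are removed, using only the second
moment of the number of the primes in intervals. There is no loss of a power of `log X`, as only boundedly many primes
at a time have to be compared. (2) So in a positive proportion of the intervals of length `J = (log X) ^ (b + 2)`
there are at least `(log J) ^ 2` elements of `Q`. In each of these intervals they are added to the `a`-primes in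
`(√(2 J), J]`, whose relative density in the primes is only `c (log J) ^ (-a)`. A moment of order `k`, about
`log log J`, of the number of the representations is bounded by the upper bound sieve, uniformly in the dimension `k`
(`Pool.Agent.N136.OW.sv2`), and shows that there are at least `c J / ((log J) ^ a (log log J) ^ 2)` sums.

From the starting files: the binomial moments of the number of primes in short windows and the counts of the iterated
primes (`Pool.Agent.TH882.IX`), the uniform sieve (`Pool.Agent.N136.OW`, `Pool.Agent.N75.OW`).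
-/

set_option autoImplicit false

open Finset Filter Topology

namespace Pool.Agent.Results.MP_e3f158_nt.DoublyLogarithmicLoss

/-- the `x`-th prime, for `x ≥ 1` -/
noncomputable def pr (x : ℕ) : ℕ := Nat.nth Nat.Prime (x - 1)

/-- the `x`-th `i`-prime, for `x ≥ 1`: the `(i + 1)`-fold iterate of `pr` -/
noncomputable def iPrime (i x : ℕ) : ℕ := pr^[i + 1] x

/-- The pair of indices `(x, y)` is a representation of `m` of type `(a, b)`. -/
def IsRep (a b m x y : ℕ) : Prop :=
  1 ≤ x ∧ 1 ≤ y ∧ iPrime a x + iPrime b y = m ∧ iPrime a x ≠ iPrime b y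

open Classical in
/-- The `n` with `1 ≤ n ≤ X` for which there are `p < q`, `p ≤ (log X) ^ (max (A, B) + 2)`, such that `2 n` has, for
all `a ≤ A` and `b ≤ B`, a representation of type `(a, b)` by the two numbers `p` and `q`. -/
noncomputable def represented (A B X : ℕ) : Finset ℕ :=
  (Icc 1 X).filter (fun n => ∃ p q : ℕ, p < q ∧ (p : ℝ) ≤ Real.log X ^ (max A B + 2) ∧
    ∀ a ≤ A, ∀ b ≤ B, ∃ x y : ℕ, IsRep a b (2 * n) x y ∧
      ((iPrime a x = p ∧ iPrime b y = q) ∨ (iPrime a x = q ∧ iPrime b y = p)))

open Pool.Agent.TH882.IX

lemma exists_index (i : ℕ) : ∀ q : ℕ, IsP i q → ∃ x : ℕ, 1 ≤ x ∧ iPrime i x = q := by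
  have hpr : ∀ q : ℕ, q.Prime → pr (Nat.primeCounting q) = q := by
    intro q hq
    unfold pr Nat.primeCounting Nat.primeCounting'
    rw [Nat.count_succ, if_pos hq, Nat.add_sub_cancel]
    exact Nat.nth_count hq
  induction i with
  | zero =>
    intro q hq
    refine ⟨Nat.primeCounting q, pi_pos hq, ?_⟩
    show pr^[0 + 1] _ = q
    rw [zero_add, Function.iterate_one]
    exact hpr q hq
  | succ i ih =>
    rintro q ⟨hq, h⟩
    obtain ⟨x, hx, h1⟩ := ih _ h
    refine ⟨x, hx, ?_⟩
    show pr^[i + 1 + 1] x = q
    rw [Function.iterate_succ_apply']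
    have : pr^[i + 1] x = Nat.primeCounting q := h1
    rw [this]
    exact hpr q hq

lemma isP_succ (b : ℕ) : ∀ q : ℕ, IsP (b + 1) q → IsP b q := by
  induction b with
  | zero => intro q h; exact h.1
  | succ b ih => intro q h; exact ⟨h.1, ih _ h.2⟩

lemma isP_mono {a b : ℕ} (h : a ≤ b) (q : ℕ) : IsP b q → IsP a q := by
  induction b, h using Nat.le_induction with
  | base => exact id
  | succ b _ ih => exact fun hq => ih (isP_succ b q hq)

theorem result (A B : ℕ) : ∃ c : ℝ, 0 < c ∧ ∀ᶠ X : ℕ in atTop,
    c * X / (Real.log (Real.log X) ^ min A B * Real.log (Real.log (Real.log X)) ^ 2) ≤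
      ((represented A B X).card : ℝ) := by
  classical
  obtain ⟨c, hc, h⟩ := Pool.Agent.T2q87.IP.main (min A B) (max A B)
  refine ⟨c, hc, ?_⟩
  filter_upwards [h] with X hX
  refine hX.trans ?_
  rw [Nat.cast_le]
  apply card_le_card
  intro n hn
  unfold hs at hn
  rw [mem_filter] at hn
  obtain ⟨h1, p, q, h2, h3, h4, h5, h6⟩ := hn
  unfold represented
  rw [mem_filter]
  refine ⟨h1, p, q, h4, h5, fun a ha b hb => ?_⟩
  rcases le_total A B with hAB | hAB
  · rw [min_eq_left hAB] at h2
    rw [max_eq_right hAB] at h3
    obtain ⟨x, hx, hx2⟩ := exists_index a p (isP_mono ha p h2)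
    obtain ⟨y, hy, hy2⟩ := exists_index b q (isP_mono hb q h3)
    refine ⟨x, y, ⟨hx, hy, ?_, ?_⟩, Or.inl ⟨hx2, hy2⟩⟩
    · rw [hx2, hy2, h6]
    · rw [hx2, hy2]
      exact h4.ne
  · rw [min_eq_right hAB] at h2
    rw [max_eq_left hAB] at h3
    obtain ⟨x, hx, hx2⟩ := exists_index a q (isP_mono ha q h3)
    obtain ⟨y, hy, hy2⟩ := exists_index b p (isP_mono hb p h2)
    refine ⟨x, y, ⟨hx, hy, ?_, ?_⟩, Or.inr ⟨hx2, hy2⟩⟩
    · rw [hx2, hy2, add_comm, h6]
    · rw [hx2, hy2]
      exact h4.ne'

end Pool.Agent.Results.MP_e3f158_nt.DoublyLogarithmicLoss
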