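import Pool.Agent.T2h83.US.Sim
import Pool.Agent.R518.B.IPr

/-!
# Representations of several numbers with the same iterated-index prime, in the residue classes of almost all moduli

Let `M` be the product of the primes up to `y`, where `y` is a large constant times `log log x`. For almost all moduli
`q 1, …, q k`, up to `x / log ^ B x`, and all residue classes `r i` modulo `q i` (if `q i` has prime factors between `y` and
`log ^ B x`, they have to divide `r i`; so all the classes if `q i` is a prime larger than `log ^ B x`) almost all vectors of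
numbers `N i = M n i` with `n i ≡ r i` modulo `q i` and `x < M n i ≤ 2 x` have for EVERY `a ≤ A` representations of type
`(a, 0)` with the SAME `a`-prime: `N i = p + p i` for all `i` with an `a`-prime `p` and primes `p i`, and at least about the
expected number of them. The same holds for every set of primes with at least `x / log ^ A x` elements in place of the set of
the `a`-primes.

Method: the result for one number (`Pool.Agent.T2h83.UP.cls`) holds for arbitrary sets of primes; it is applied to the subset of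
the elements which are already common summands of the first numbers of the vector.
-/

set_option autoImplicit false

open Finset

namespace Pool.Agent.Results.MP_e3f158_nt.SimultaneousRepresentations

/-- The `i`-th `a`-prime: the `(a + 1)`-fold iterate of `k ↦ k`-th prime, applied to `i`. -/
noncomputable def iPrime (a i : ℕ) : ℕ := Nat.iterate (fun k : ℕ => Nat.nth Nat.Prime (k - 1)) (a + 1) i

/-- All the numbers `N j` have representations of type `(a, 0)` with the same `a`-prime. -/
def CommonRep (a : ℕ) {k : ℕ} (N : Fin k → ℕ) : Prop :=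
  ∃ i : ℕ, 1 ≤ i ∧ ∀ j : Fin k, ∃ l : ℕ, 1 ≤ l ∧ iPrime a i + iPrime 0 l = N j ∧ iPrime a i ≠ iPrime 0 l

open Classical in
/-- The `a`-primes `≤ x`. -/
noncomputable def IPs (a x : ℕ) : Finset ℕ := (Icc 1 x).filter (fun u => ∃ i : ℕ, 0 < i ∧ iPrime a i = u)

/-- The product of `1 - 1 / p` over the primes `p ≤ y`. -/
noncomputable def V (y : ℕ) : ℝ := ∏ p ∈ (Icc 1 y).filter Nat.Prime, (1 - 1 / (p : ℝ))

/-- The number of the `u ∈ U` such that all the numbers `N j - u` are prime. -/
def common {k : ℕ} (U : Finset ℕ) (N : Fin k → ℕ) : ℕ := (U.filter (fun u => ∀ j, (N j - u).Prime)).card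

/-- The integers `n` with `n ≡ r` modulo `q` and `x < M n ≤ 2 x`, where `M` is the product of the primes `≤ y`. -/
def members (x y q r : ℕ) : Finset ℕ :=
  (Icc 1 (2 * x)).filter (fun n => x < primorial y * n ∧ primorial y * n ≤ 2 * x ∧ n ≡ r [MOD q])

lemma common_of {a x k : ℕ} {N : Fin k → ℕ} (hN : ∀ j, x < N j) (h : k + 1 ≤ common (IPs a x) N) : CommonRep a N := by
  classical
  unfold common at h
  obtain ⟨T, hT⟩ : ∃ T, T = (IPs a x).filter (fun u => ∀ j, (N j - u).Prime) := ⟨_, rfl⟩
  rw [← hT] at h
  obtain ⟨D, hD⟩ : ∃ D : Finset ℕ, D = (univ : Finset (Fin k)).image (fun j => N j / 2) := ⟨_, rfl⟩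
  have hDc : D.card ≤ k := by
    rw [hD]
    refine card_image_le.trans ?_
    rw [card_univ, Fintype.card_fin]
  obtain ⟨w, hw, hwD⟩ : ∃ w ∈ T, w ∉ D := by
    by_contra hcon
    push Not at hcon
    have := card_le_card (fun w hw => hcon w hw : T ⊆ D)
    omega
  rw [hT, mem_filter] at hw
  obtain ⟨hw1, hw2⟩ := hw
  unfold IPs at hw1
  rw [mem_filter, mem_Icc] at hw1
  obtain ⟨⟨hw3, hw4⟩, i, hi, hiw⟩ := hw1
  refine ⟨i, hi, fun j => ?_⟩
  have h0 : iPrime 0 (Nat.count Nat.Prime (N j - w) + 1) = N j - w := by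
    unfold iPrime
    show Nat.nth Nat.Prime (Nat.count Nat.Prime (N j - w) + 1 - 1) = N j - w
    rw [Nat.add_sub_cancel]
    exact Nat.nth_count (hw2 j)
  have hj := hN j
  refine ⟨Nat.count Nat.Prime (N j - w) + 1, by omega, ?_, ?_⟩
  · rw [hiw, h0]
    omega
  · rw [hiw, h0]
    intro h1
    apply hwD
    rw [hD, mem_image]
    exact ⟨j, mem_univ _, by omega⟩

open Classical in
/-- **Theorem.** For all `k`, `A`, `W` and `0 < ε ≤ 1` there is `K₀` such that for every `K₁` there are `B` and `x₀` with the
following property. Let `x ≥ x₀`, let `y` be between `K₀ log log x` and `K₁ log log x`, let `M` be the product of the primes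
`≤ y` and let `Q` be an integer with `Q log ^ B x ≤ x`. There is a set `X` of at most `Q / log ^ W x` integers such that for all
the moduli `q 1, …, q k` in `(Q, 2 Q]` outside `X` and for all residue classes `r i` modulo `q i` which are divisible by all the
prime factors `p` of `q i` with `y < p ≤ log ^ B x`:
(1) for every set `U` of primes `≤ x` with at least `x / log ^ A x` elements, for all the vectors of integers `n i ≡ r i` modulo
`q i` with `x < M n i ≤ 2 x`, except for at most `ε` times the product of the `x / (M q i)`, at least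
`(1 - ε) #U / (V y log x) ^ k` elements `u` of `U` have all the numbers `M n i - u` prime;
(2) all the vectors of integers `n i ≡ r i` modulo `q i` with `x < M n i ≤ 2 x`, except for at most `ε` times the product of the
`x / (M q i)`, have the following property: for EVERY `a ≤ A` all the numbers `M n i` have representations of type `(a, 0)`
with the same `a`-prime, and at least `(1 - ε) #IPs a x / (V y log x) ^ k` of the `a`-primes `u ≤ x` have all the numbers
`M n i - u` prime. -/
theorem result (k A W : ℕ) (ε : ℝ) (hε : 0 < ε) (hε1 : ε ≤ 1) : ∃ K₀ : ℕ, ∀ K₁ : ℕ, ∃ B x₀ : ℕ, ∀ x : ℕ, x₀ ≤ x →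
    ∀ y : ℕ, K₀ * Real.log (Real.log x) ≤ y → (y : ℝ) ≤ K₁ * Real.log (Real.log x) →
    ∀ Q : ℕ, (Q : ℝ) * Real.log x ^ B ≤ x →
    ∃ X : Finset ℕ, (X.card : ℝ) ≤ Q / Real.log x ^ W ∧ ∀ q r : Fin k → ℕ, (∀ i, q i ∈ Ioc Q (2 * Q) ∧ q i ∉ X) →
      (∀ i, ∀ p : ℕ, p.Prime → y < p → (p : ℝ) ≤ Real.log x ^ B → p ∣ q i → p ∣ r i) →
      (∀ U : Finset ℕ, U ⊆ Icc 1 x → (∀ u ∈ U, u.Prime) → (x : ℝ) ≤ U.card * Real.log x ^ A →
        (((Fintype.piFinset (fun i => members x y (q i) (r i))).filter (fun n =>
          (common U (fun i => primorial y * n i) : ℝ) < (1 - ε) * (U.card / (V y * Real.log x) ^ k))).card : ℝ) ≤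
          ε * ∏ i, (x / (primorial y * q i) : ℝ)) ∧
      (((Fintype.piFinset (fun i => members x y (q i) (r i))).filter (fun n => ¬ ∀ a ≤ A,
          CommonRep a (fun i => primorial y * n i) ∧
          (1 - ε) * ((IPs a x).card / (V y * Real.log x) ^ k) ≤ common (IPs a x) (fun i => primorial y * n i))).card : ℝ) ≤
        ε * ∏ i, (x / (primorial y * q i) : ℝ) := by
  have hA : (0 : ℝ) < A + 1 := by positivity
  obtain ⟨ε', hε'⟩ : ∃ ε' : ℝ, ε' = ε / (2 * (A + 1)) := ⟨_, rfl⟩
  have hA1 : (1 : ℝ) ≤ A + 1 := by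
    have : (0 : ℝ) ≤ A := Nat.cast_nonneg A
    linarith
  have he0 : 0 < ε' := by rw [hε']; positivity
  have he2 : ε' ≤ ε / 2 := by
    rw [hε']
    exact div_le_div_of_nonneg_left hε.le (by norm_num) (by linarith)
  have he1 : ε' ≤ 1 / 2 := by linarith
  have heA : (A + 1) * ε' ≤ ε := by
    rw [hε']
    have : (A + 1) * (ε / (2 * (A + 1))) = ε / 2 := by field_simp
    rw [this]
    linarith
  obtain ⟨K₀, hK₀⟩ := Pool.Agent.T2h83.US.us_sim k (A + 2) W ε' he0 (by linarith)
  refine ⟨K₀, fun K₁ => ?_⟩
  obtain ⟨B, x₁, h1⟩ := hK₀ K₁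
  choose c hc x₂ h2 using fun a => Pool.Agent.R518.IP.IPs_low a
  obtain ⟨x₃, h3⟩ := Pool.Agent.H373R2.T7.ev_L' (1 + ∑ a ∈ range (A + 1), 1 / c a)
  obtain ⟨x₄, h4⟩ := Pool.Agent.H373R2.T7.ev_log' (A + k + 3) (2 * (k + 1))
  refine ⟨B, x₁ + ∑ a ∈ range (A + 1), x₂ a + x₃ + x₄ + 3, fun x hx y hy1 hy2 Q hQ => ?_⟩
  obtain ⟨X, hX1, hX2⟩ := h1 x (by omega) y hy1 hy2 Q hQ
  have hL := h3 x (by omega)
  have hL4 := h4 x (by omega)
  have hsum0 : 0 ≤ ∑ a ∈ range (A + 1), 1 / c a := sum_nonneg fun a _ => by
    have := hc a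
    positivity
  have hx0 : (0 : ℝ) < x := by exact_mod_cast (by omega : 0 < x)
  have hx1 : (1 : ℝ) ≤ x := by exact_mod_cast (by omega : 1 ≤ x)
  refine ⟨X, hX1, fun q r hq hr => ?_⟩
  have h5 := hX2 q r hq hr
  have hVe : V y = Pool.Agent.H373R2.T7.Vz y := rfl
  have hV0 : 0 < V y := by rw [hVe]; exact Pool.Agent.H373R2.T7.Vz_pos y
  have hV1 : V y ≤ 1 := by rw [hVe]; exact Pool.Agent.H373R2.T7.Vz_le_one y
  obtain ⟨L, hLd⟩ : ∃ L, L = Real.log (x : ℝ) := ⟨_, rfl⟩
  rw [← hVe] at h5
  rw [← hLd] at h5 hL hL4 ⊢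
  have hL1 : 1 ≤ L := by linarith
  have hL0 : 0 < L := by linarith
  have hk0 : (0 : ℝ) ≤ k := Nat.cast_nonneg _
  obtain ⟨Z, hZ⟩ : ∃ Z : ℝ, Z = ∏ i, (x / (primorial y * q i) : ℝ) := ⟨_, rfl⟩
  have hZ0 : 0 ≤ Z := by rw [hZ]; exact prod_nonneg fun i _ => by positivity
  rw [← hZ] at h5 ⊢
  -- one set
  have key : ∀ U : Finset ℕ, U ⊆ Icc 1 x → (∀ u ∈ U, u.Prime) → (x : ℝ) ≤ U.card * L ^ (A + 2) →
      (((Fintype.piFinset (fun i => members x y (q i) (r i))).filter (fun n =>
        (common U (fun i => primorial y * n i) : ℝ) < (1 - ε') * (U.card / (V y * L) ^ k))).card : ℝ) ≤ ε' * Z := by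
    intro U hU hUp hUc
    refine le_trans ((Nat.cast_le (α := ℝ)).2 (card_le_card fun n hn => ?_)) (h5 U hU hUp hUc)
    rw [mem_filter] at hn ⊢
    refine ⟨hn.1, lt_of_le_of_lt (le_of_eq ?_) hn.2⟩
    unfold common
    congr!
  refine ⟨fun U hU hUp hUc => ?_, ?_⟩
  · have h6 := key U hU hUp (by
      refine hUc.trans ?_
      apply mul_le_mul_of_nonneg_left _ (Nat.cast_nonneg _)
      exact pow_le_pow_right₀ hL1 (by omega))
    refine le_trans ((Nat.cast_le (α := ℝ)).2 (card_le_card fun n hn => ?_)) (h6.trans ?_)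
    · rw [mem_filter] at hn ⊢
      refine ⟨hn.1, hn.2.trans_le ?_⟩
      apply mul_le_mul_of_nonneg_right (by linarith)
      positivity
    · apply mul_le_mul_of_nonneg_right _ hZ0
      linarith
  · have hIP : ∀ a ∈ range (A + 1), IPs a x ⊆ Icc 1 x ∧ (∀ u ∈ IPs a x, u.Prime) ∧
        (x : ℝ) ≤ (IPs a x).card * L ^ (A + 2) := by
      intro a ha
      rw [mem_range] at ha
      refine ⟨filter_subset _ _, fun u hu => ?_, ?_⟩
      · unfold IPs at hu
        rw [mem_filter] at hu
        obtain ⟨i, _, hi⟩ := hu.2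
        rw [← hi]
        exact Pool.Agent.R518.IP.ip_prime a i
      · have e1 : x₂ a ≤ ∑ a ∈ range (A + 1), x₂ a :=
          single_le_sum (f := x₂) (fun _ _ => Nat.zero_le _) (mem_range.2 ha)
        have e2 := h2 a x (by omega)
        rw [← hLd] at e2
        have e3 : 1 / c a ≤ L := by
          have : 1 / c a ≤ ∑ a ∈ range (A + 1), 1 / c a :=
            single_le_sum (f := fun a => 1 / c a) (fun a _ => by have := hc a; positivity) (mem_range.2 ha)
          linarith
        rw [div_le_iff₀ (hc a)] at e3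
        have e4 : ((Pool.Agent.R518.IP.IPs a x).card : ℝ) = (IPs a x).card := rfl
        rw [e4] at e2
        calc (x : ℝ) = x * 1 := by ring
          _ ≤ x * (L * c a) := mul_le_mul_of_nonneg_left e3 hx0.le
          _ = (c a * x) * L := by ring
          _ ≤ ((IPs a x).card * L ^ (a + 1)) * L := mul_le_mul_of_nonneg_right e2 hL0.le
          _ = (IPs a x).card * L ^ (a + 2) := by ring
          _ ≤ (IPs a x).card * L ^ (A + 2) := by
              apply mul_le_mul_of_nonneg_left _ (Nat.cast_nonneg _)
              exact pow_le_pow_right₀ hL1 (by omega)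
    have hsub : (Fintype.piFinset (fun i => members x y (q i) (r i))).filter (fun n => ¬ ∀ a ≤ A,
          CommonRep a (fun i => primorial y * n i) ∧
          (1 - ε) * ((IPs a x).card / (V y * L) ^ k) ≤ common (IPs a x) (fun i => primorial y * n i)) ⊆
        (range (A + 1)).biUnion (fun a => (Fintype.piFinset (fun i => members x y (q i) (r i))).filter (fun n =>
          (common (IPs a x) (fun i => primorial y * n i) : ℝ) < (1 - ε') * ((IPs a x).card / (V y * L) ^ k))) := by
      intro n hn
      rw [mem_filter] at hn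
      obtain ⟨hn1, hn2⟩ := hn
      by_contra hcon
      apply hn2
      intro a ha
      have h6 : (1 - ε') * ((IPs a x).card / (V y * L) ^ k) ≤ common (IPs a x) (fun i => primorial y * n i) := by
        by_contra h7
        rw [not_le] at h7
        apply hcon
        rw [mem_biUnion]
        exact ⟨a, mem_range.2 (by omega), mem_filter.2 ⟨hn1, h7⟩⟩
      have hc0 : 0 ≤ ((IPs a x).card : ℝ) / (V y * L) ^ k := by positivity
      refine ⟨?_, ?_⟩
      · apply common_of (x := x)
        · intro j
          rw [Fintype.mem_piFinset] at hn1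
          have h7 := hn1 j
          unfold members at h7
          rw [mem_filter] at h7
          exact h7.2.1
        · have h7 := (hIP a (mem_range.2 (by omega))).2.2
          have h8 : (2 * (k + 1)) * L ^ (A + k + 3) ≤ x := by
            refine hL4.trans ?_
            have : 1 ≤ √(x : ℝ) := by rw [← Real.sqrt_one]; exact Real.sqrt_le_sqrt hx1
            calc √(x : ℝ) = √(x : ℝ) * 1 := (mul_one _).symm
              _ ≤ √(x : ℝ) * √(x : ℝ) := by gcongr
              _ = x := Real.mul_self_sqrt hx0.le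
          have h9 : (2 * (k + 1)) * L ^ k ≤ (IPs a x).card := by
            have h10 : ((2 * (k + 1)) * L ^ k) * L ^ (A + 2) ≤ (IPs a x).card * L ^ (A + 2) := by
              refine le_trans ?_ (h8.trans h7)
              calc ((2 * ((k : ℝ) + 1)) * L ^ k) * L ^ (A + 2) = (2 * (k + 1)) * L ^ (A + k + 2) := by
                    rw [show A + k + 2 = k + (A + 2) by ring, pow_add]
                    ring
                _ ≤ (2 * (k + 1)) * L ^ (A + k + 3) := by
                    apply mul_le_mul_of_nonneg_left _ (by positivity)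
                    exact pow_le_pow_right₀ hL1 (by omega)
            exact le_of_mul_le_mul_right h10 (by positivity)
          have h11 : 2 * ((k : ℝ) + 1) ≤ (IPs a x).card / (V y * L) ^ k := by
            rw [le_div_iff₀ (by positivity)]
            calc 2 * ((k : ℝ) + 1) * (V y * L) ^ k ≤ 2 * (k + 1) * (1 * L) ^ k := by gcongr
              _ = 2 * (k + 1) * L ^ k := by rw [one_mul]
              _ ≤ _ := h9
          have h12 : ((k : ℝ) + 1) ≤ common (IPs a x) (fun i => primorial y * n i) := by
            refine le_trans ?_ h6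
            nlinarith
          exact_mod_cast h12
      · refine le_trans ?_ h6
        apply mul_le_mul_of_nonneg_right (by linarith) hc0
    have h6 : (((Fintype.piFinset (fun i => members x y (q i) (r i))).filter (fun n => ¬ ∀ a ≤ A,
          CommonRep a (fun i => primorial y * n i) ∧
          (1 - ε) * ((IPs a x).card / (V y * L) ^ k) ≤ common (IPs a x) (fun i => primorial y * n i))).card : ℝ) ≤
        ∑ a ∈ range (A + 1), (((Fintype.piFinset (fun i => members x y (q i) (r i))).filter (fun n =>
          (common (IPs a x) (fun i => primorial y * n i) : ℝ) < (1 - ε') * ((IPs a x).card / (V y * L) ^ k))).card : ℝ) := by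
      exact_mod_cast (card_le_card hsub).trans card_biUnion_le
    refine h6.trans ((sum_le_sum fun a ha => key (IPs a x) (hIP a ha).1 (hIP a ha).2.1 (hIP a ha).2.2).trans ?_)
    rw [sum_const, card_range, nsmul_eq_mul]
    push_cast
    calc ((A : ℝ) + 1) * (ε' * Z) = ((A + 1) * ε') * Z := by ring
      _ ≤ ε * Z := mul_le_mul_of_nonneg_right heA hZ0

end Pool.Agent.Results.MP_e3f158_nt.SimultaneousRepresentations
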